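import Mathlib
import Pool.Agent.helper1.UN.SpecU

/-!
# VCL (project UN, MP_cf4097_nt, block H, part U): the linear change of variables `(t, l) ↦ (t + 2 lv l w)_w`
-/

set_option autoImplicit false

open NumberField Complex MeasureTheory NumberField.Units NumberField.Units.dirichletUnitTheorem

open scoped Classical

namespace Pool.Agent.UN

section

variable (K : Type) [Field K] [NumberField K]

theorem VCL_lv_add (l l' : logSpace K) (w : InfinitePlace K) : lv (l + l') w = lv l w + lv l' w := by
  unfold lv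
  split_ifs with h
  · simp only [Pi.add_apply, Finset.sum_add_distrib]
    ring
  · simp only [Pi.add_apply]
    ring

theorem VCL_lv_smul (c : ℝ) (l : logSpace K) (w : InfinitePlace K) : lv (c • l) w = c * lv l w := by
  unfold lv
  split_ifs with h
  · simp only [Pi.smul_apply, smul_eq_mul, ← Finset.mul_sum]
    ring
  · simp only [Pi.smul_apply, smul_eq_mul]
    ring

/-- The linear map. -/
noncomputable def VCL_lin : (ℝ × logSpace K) →ₗ[ℝ] (InfinitePlace K → ℝ) where
  toFun p := fun w => p.1 + 2 * lv p.2 w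
  map_add' p q := by
    funext w
    simp only [Prod.fst_add, Prod.snd_add, Pi.add_apply, VCL_lv_add]
    ring
  map_smul' c p := by
    funext w
    simp only [Prod.smul_fst, Prod.smul_snd, Pi.smul_apply, smul_eq_mul, VCL_lv_smul, RingHom.id_apply]
    ring

omit [NumberField K] in
theorem VCL_mult_pos (w : InfinitePlace K) : (0 : ℝ) < (w.mult : ℝ) := by
  exact_mod_cast InfinitePlace.mult_pos

theorem VCL_inj : Function.Injective (VCL_lin K) := by
  rw [← LinearMap.ker_eq_bot, LinearMap.ker_eq_bot']
  rintro ⟨t, l⟩ h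
  have h1 : ∀ w : InfinitePlace K, t + 2 * lv l w = 0 := fun w => congrFun h w
  have h2 : ∀ w : {w : InfinitePlace K // w ≠ w₀}, l w = -((w.1.mult : ℝ) * t) / 2 := by
    rintro ⟨w, hw⟩
    have h3 := h1 w
    unfold lv at h3
    rw [dif_neg hw] at h3
    have h4 := VCL_mult_pos K w
    have h5 : l ⟨w, hw⟩ / (w.mult : ℝ) = -t / 2 := by linarith
    rw [div_eq_iff h4.ne'] at h5
    rw [h5]
    ring
  have h6 := h1 w₀
  unfold lv at h6
  rw [dif_pos rfl] at h6
  have h7 : ∑ w' : {w : InfinitePlace K // w ≠ w₀}, l w' = -(t / 2) * ∑ w' : {w : InfinitePlace K // w ≠ w₀}, (w'.1.mult : ℝ) := by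
    rw [Finset.mul_sum]
    refine Finset.sum_congr rfl fun w _ => ?_
    rw [h2 w]
    ring
  rw [h7] at h6
  have h8 : (0 : ℝ) < ((w₀ : InfinitePlace K).mult : ℝ) := VCL_mult_pos K w₀
  have h9 : (0 : ℝ) ≤ ∑ w' : {w : InfinitePlace K // w ≠ w₀}, (w'.1.mult : ℝ) :=
    Finset.sum_nonneg fun w _ => (VCL_mult_pos K w.1).le
  have h10 : t * (((w₀ : InfinitePlace K).mult : ℝ) + ∑ w' : {w : InfinitePlace K // w ≠ w₀}, (w'.1.mult : ℝ)) = 0 := by
    field_simp at h6
    linarith
  have h11 : t = 0 := by
    rcases mul_eq_zero.mp h10 with h12 | h12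
    · exact h12
    · linarith
  subst h11
  refine Prod.ext rfl ?_
  funext w
  change l w = 0
  rw [h2 w]
  simp

theorem VCL_dim : Module.finrank ℝ (ℝ × logSpace K) = Module.finrank ℝ (InfinitePlace K → ℝ) := by
  rw [Module.finrank_prod, Module.finrank_self, Module.finrank_fintype_fun_eq_card, Module.finrank_fintype_fun_eq_card,
    Fintype.card_subtype_compl, Fintype.card_subtype_eq]
  have h : 0 < Fintype.card (InfinitePlace K) := Fintype.card_pos
  omega

/-- The continuous linear equivalence. -/
noncomputable def VCL_equiv : (ℝ × logSpace K) ≃L[ℝ] (InfinitePlace K → ℝ) :=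
  (LinearMap.linearEquivOfInjective (VCL_lin K) (VCL_inj K) (VCL_dim K)).toContinuousLinearEquiv

theorem VCL_equiv_apply (p : ℝ × logSpace K) : VCL_equiv K p = fun w => p.1 + 2 * lv p.2 w := rfl

end

theorem VCL : VCL_stmt := by
  intro K _ _
  let L := VCL_equiv K
  let e : (ℝ × logSpace K) ≃ᵐ (InfinitePlace K → ℝ) := L.toHomeomorph.toMeasurableEquiv
  have he : ∀ p, e p = fun w => p.1 + 2 * lv p.2 w := fun p => rfl
  have hV1 : Measure.IsAddHaarMeasure (volume : Measure (logSpace K)) := inferInstance
  have hV : Measure.IsAddHaarMeasure (volume : Measure (ℝ × logSpace K)) := by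
    rw [Measure.volume_eq_prod]
    infer_instance
  have hH : Measure.IsAddHaarMeasure (Measure.map e (volume : Measure (ℝ × logSpace K))) :=
    ContinuousLinearEquiv.isAddHaarMeasure_map L volume
  have hsm := Measure.isAddLeftInvariant_eq_smul (Measure.map e (volume : Measure (ℝ × logSpace K)))
    (volume : Measure (InfinitePlace K → ℝ))
  have hpos := Measure.addHaarScalarFactor_pos_of_isAddHaarMeasure (Measure.map e (volume : Measure (ℝ × logSpace K)))
    (volume : Measure (InfinitePlace K → ℝ))
  obtain ⟨c, hc⟩ : ∃ c : NNReal, c = Measure.addHaarScalarFactor (Measure.map e (volume : Measure (ℝ × logSpace K)))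
    (volume : Measure (InfinitePlace K → ℝ)) := ⟨_, rfl⟩
  rw [← hc] at hsm hpos
  refine ⟨(c : ℝ), by exact_mod_cast hpos, fun g => ⟨fun hg => ?_, ?_⟩⟩
  · have h1 : Integrable g (Measure.map e (volume : Measure (ℝ × logSpace K))) := by
      rw [hsm]
      exact hg.smul_measure_nnreal
    exact (integrable_map_equiv e g).mp h1
  · have h1 : ∫ p : ℝ × logSpace K, g (fun w => p.1 + 2 * lv p.2 w) = ∫ x, g x ∂(Measure.map e (volume : Measure (ℝ × logSpace K))) :=
      (integral_map_equiv e g).symm
    rw [h1, hsm, integral_smul_nnreal_measure]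
    rfl

end Pool.Agent.UN
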